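import Pool.Agent.H8.JS.Targets

/-!
# The steps of the machine with counters, first control states
-/

set_option autoImplicit false

namespace Pool.Agent.H91.JS

open Pool.Agent.H69.Sp Pool.Agent.H69.Mt Pool.Agent.H16.TO Pool.Agent.H8.PL Pool.Agent.H8.JS

section
variable {r : ℕ} {T : Type} [Finite T] (U : Bool → Bool → Bool → Bool → T → Prop)
  (Hh Vv : T → T → Prop)

theorem b1_fin {P : Fin 5 → Prop} : (∀ j, P j) ↔ P 0 ∧ P 1 ∧ P 2 ∧ P 3 ∧ P 4 := by
  constructor
  · intro h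
    exact ⟨h 0, h 1, h 2, h 3, h 4⟩
  · rintro ⟨h0, h1, h2, h3, h4⟩ j
    fin_cases j
    · exact h0
    · exact h1
    · exact h2
    · exact h3
    · exact h4

/-- every configuration comes from a configuration of the other machine -/
theorem b5_surj (d : CC (m5 (r := r) U Hh Vv)) : ∃ k', d = b5 U Hh Vv k' := by
  obtain ⟨q, i, n, h, w⟩ := d
  refine ⟨⟨q, i, n (0 : Fin 5), n (1 : Fin 5), n (2 : Fin 5), n (3 : Fin 5), n (4 : Fin 5), h, w⟩, ?_⟩
  refine CC.ext rfl rfl ?_ rfl rfl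
  funext j
  have : ∀ j : Fin 5, n j = (![n (0 : Fin 5), n (1 : Fin 5), n (2 : Fin 5), n (3 : Fin 5),
      n (4 : Fin 5)] : Fin 5 → ℕ) j := b1_fin.mpr ⟨rfl, rfl, rfl, rfl, rfl⟩
  exact this j

theorem b5_inj {k k' : K5 r T} (h : b5 U Hh Vv k = b5 U Hh Vv k') : k = k' := by
  have h1 : k.q = k'.q := congrArg (fun c => c.q) h
  have h2 : k.i = k'.i := congrArg (fun c => c.i) h
  have h3 : k.h = k'.h := congrArg (fun c => c.h) h
  have h4 : k.w = k'.w := congrArg (fun c => c.w) h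
  have h5 : ∀ j : Fin 5, (b5 U Hh Vv k).n j = (b5 U Hh Vv k').n j := fun j => by rw [h]
  exact K5.ext h1 h2 (h5 0) (h5 1) (h5 2) (h5 3) (h5 4) h3 h4

/-- the steps in coordinates -/
theorem b1_cs (x : List Bool) (k k' : K5 r T) :
    CStep (m5 U Hh Vv) x (b5 U Hh Vv k) (b5 U Hh Vv k') ↔
      ∃ (adv : Bool) (d : Fin 5 → Mv) (a : Option T) (m : Mv),
        D5 U Hh Vv k.q (x[k.i]?) (fun j => decide ((![k.c, k.d, k.p, k.s, k.y] : Fin 5 → ℕ) j = 0))
          (k.w k.h) k'.q adv d a m ∧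
          k'.i = (if adv then k.i + 1 else k.i) ∧
          (k'.c = (d 0).go k.c ∧ k'.d = (d 1).go k.d ∧ k'.p = (d 2).go k.p ∧ k'.s = (d 3).go k.s ∧
            k'.y = (d 4).go k.y) ∧
          k'.h = m.go k.h ∧ ∀ p, k'.w p = if p = k.h then a else k.w p := by
  constructor
  · rintro ⟨adv, d, a, m, h1, h2, h3, h4, h5⟩
    exact ⟨adv, d, a, m, h1, h2, ⟨h3 (0 : Fin 5), h3 (1 : Fin 5), h3 (2 : Fin 5), h3 (3 : Fin 5),
      h3 (4 : Fin 5)⟩, h4, h5⟩
  · rintro ⟨adv, d, a, m, h1, h2, h3, h4, h5⟩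
    exact ⟨adv, d, a, m, h1, h2, b1_fin.mpr h3, h4, h5⟩

omit [Finite T] in
/-- the tape is unchanged -/
theorem b1_w (w w' : ℕ → Option T) (h : ℕ) : (∀ p, w' p = if p = h then w h else w p) ↔ w' = w := by
  constructor
  · intro h1
    funext p
    rw [h1]
    split_ifs with h2
    · rw [h2]
    · rfl
  · rintro rfl p
    split_ifs with h2
    · rw [h2]
    · rfl

omit [Finite T] in
/-- a step without work on the tape -/
theorem b1_one (k k' : K5 r T) (q' : Pc r T) (adv : Bool) (d : Fin 5 → Mv) :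
    (∃ (adv' : Bool) (d' : Fin 5 → Mv) (a : Option T) (m : Mv),
      (k'.q = q' ∧ adv' = adv ∧ d' = d ∧ a = k.w k.h ∧ m = .S) ∧
        k'.i = (if adv' then k.i + 1 else k.i) ∧
          (k'.c = (d' 0).go k.c ∧ k'.d = (d' 1).go k.d ∧ k'.p = (d' 2).go k.p ∧
            k'.s = (d' 3).go k.s ∧ k'.y = (d' 4).go k.y) ∧
          k'.h = m.go k.h ∧ ∀ p, k'.w p = if p = k.h then a else k.w p) ↔
      k' = ⟨q', if adv then k.i + 1 else k.i, (d 0).go k.c, (d 1).go k.d, (d 2).go k.p,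
        (d 3).go k.s, (d 4).go k.y, k.h, k.w⟩ := by
  constructor
  · rintro ⟨adv', d', a, m, ⟨h1, rfl, rfl, rfl, rfl⟩, h2, ⟨h3, h4, h5, h6, h7⟩, h8, h9⟩
    exact K5.ext h1 h2 h3 h4 h5 h6 h7 h8 ((b1_w _ _ _).mp h9)
  · rintro rfl
    exact ⟨adv, d, k.w k.h, .S, ⟨rfl, rfl, rfl, rfl, rfl⟩, rfl, ⟨rfl, rfl, rfl, rfl, rfl⟩, rfl,
      (b1_w _ _ _).mpr rfl⟩

omit [Finite T] in
theorem b1_red (k k' : K5 r T) (q' : Pc r T) (adv0 : Bool) (d0 : Fin 5 → Mv)
    (D : Bool → (Fin 5 → Mv) → Option T → Mv → Prop)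
    (hD : ∀ adv d a m, D adv d a m ↔
      (k'.q = q' ∧ adv = adv0 ∧ d = d0 ∧ a = k.w k.h ∧ m = .S)) :
    (∃ (adv : Bool) (d : Fin 5 → Mv) (a : Option T) (m : Mv), D adv d a m ∧
        k'.i = (if adv then k.i + 1 else k.i) ∧
          (k'.c = (d 0).go k.c ∧ k'.d = (d 1).go k.d ∧ k'.p = (d 2).go k.p ∧
            k'.s = (d 3).go k.s ∧ k'.y = (d 4).go k.y) ∧
          k'.h = m.go k.h ∧ ∀ p, k'.w p = if p = k.h then a else k.w p) ↔
      k' = ⟨q', if adv0 then k.i + 1 else k.i, (d0 0).go k.c, (d0 1).go k.d, (d0 2).go k.p,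
        (d0 3).go k.s, (d0 4).go k.y, k.h, k.w⟩ := by
  rw [← b1_one]
  exact exists_congr fun adv => exists_congr fun d => exists_congr fun a => exists_congr fun m =>
    and_congr (hD adv d a m) Iff.rfl

omit [Finite T] in
theorem b1_c1 {Q : Prop} {adv : Bool} {a w : Option T} {m : Mv} {q q' : Pc r T}
    {d d0 : Fin 5 → Mv} (h : Q ↔ (q = q' ∧ d = d0)) :
    (adv = false ∧ a = w ∧ m = .S ∧ Q) ↔ (q = q' ∧ adv = false ∧ d = d0 ∧ a = w ∧ m = .S) := by
  rw [h]
  tauto

omit [Finite T] in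
/-- the steps in the first control states -/
theorem b1_main (x : List Bool) (k k' : K5 r T) (hk : lo k.q) :
    (∃ (adv : Bool) (d : Fin 5 → Mv) (a : Option T) (m : Mv),
        D5 U Hh Vv k.q (x[k.i]?) (fun j => decide ((![k.c, k.d, k.p, k.s, k.y] : Fin 5 → ℕ) j = 0))
          (k.w k.h) k'.q adv d a m ∧
          k'.i = (if adv then k.i + 1 else k.i) ∧
          (k'.c = (d 0).go k.c ∧ k'.d = (d 1).go k.d ∧ k'.p = (d 2).go k.p ∧ k'.s = (d 3).go k.s ∧
            k'.y = (d 4).go k.y) ∧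
          k'.h = m.go k.h ∧ ∀ p, k'.w p = if p = k.h then a else k.w p) ↔ S5 U Hh Vv x k k' := by
  obtain ⟨q, i, c, d, p, s, y, h, w⟩ := k
  cases q with
  | ini => exact b1_red _ k' .rd false ![.R, .S, .S, .S, .S] _ fun adv d a m => Iff.rfl
  | rd =>
    cases hx : x[i]? with
    | none =>
      refine (b1_red _ k' (.mul (Fin.last r)) false ![.S, .S, .R, .S, .S] _
        fun adv d a m => ?_).trans ?_
      · simp only [D5]
        simp
      · simp only [S5, hx]
        simp [Mv.go]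
    | some b =>
      refine (b1_red _ k' (.dbl b) true ![.S, .S, .S, .S, .S] _ fun adv d a m => ?_).trans ?_
      · simp only [D5]
        simp
      · simp only [S5, hx]
        simp [Mv.go]
  | dbl b =>
    by_cases hc : c = 0
    · refine (b1_red _ k' (.db2 b) false ![.S, .S, .S, .S, .S] _
        fun adv d a m => b1_c1 ?_).trans ?_
      · simp [hc]
      · simp [S5, hc, Mv.go]
    · refine (b1_red _ k' (.dbl b) false ![.L, .R, .S, .R, .S] _
        fun adv d a m => b1_c1 ?_).trans ?_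
      · simp [hc]
      · simp [S5, hc, Mv.go]
  | db2 b =>
    by_cases hc : d = 0
    · refine (b1_red _ k' (.db3 b) false ![.S, .S, .S, .S, .S] _
        fun adv d a m => b1_c1 ?_).trans ?_
      · simp [hc]
      · simp [S5, hc, Mv.go]
    · refine (b1_red _ k' (.db2 b) false ![.R, .L, .S, .S, .S] _
        fun adv d a m => b1_c1 ?_).trans ?_
      · simp [hc]
      · simp [S5, hc, Mv.go]
  | db3 b =>
    by_cases hc : s = 0
    · refine (b1_red _ k' .rd false ![if b then .R else .S, .S, .S, .S, .S] _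
        fun adv d a m => b1_c1 ?_).trans ?_
      · simp [hc]
      · cases b <;> simp [S5, hc, Mv.go]
    · refine (b1_red _ k' (.db3 b) false ![.R, .S, .S, .L, .S] _
        fun adv d a m => b1_c1 ?_).trans ?_
      · simp [hc]
      · simp [S5, hc, Mv.go]
  | mul j =>
    by_cases hj : j = 0
    · refine (b1_red _ k' .cp1 false ![.S, .S, .S, .S, .S] _
        fun adv d a m => b1_c1 ?_).trans ?_
      · simp [hj]
      · simp [S5, hj, Mv.go]
    · by_cases hc : p = 0
      · refine (b1_red _ k' (.mv j) false ![.S, .S, .S, .S, .S] _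
          fun adv d a m => b1_c1 ?_).trans ?_
        · simp [hc, hj]
        · simp [S5, hc, hj, Mv.go]
      · refine (b1_red _ k' (.ad1 j) false ![.S, .S, .L, .S, .S] _
          fun adv d a m => b1_c1 ?_).trans ?_
        · simp [hc, hj]
        · simp [S5, hc, hj, Mv.go]
  | ad1 j =>
    by_cases hc : c = 0
    · refine (b1_red _ k' (.ad2 j) false ![.S, .S, .S, .S, .S] _
        fun adv d a m => b1_c1 ?_).trans ?_
      · simp [hc]
      · simp [S5, hc, Mv.go]
    · refine (b1_red _ k' (.ad1 j) false ![.L, .R, .S, .R, .S] _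
        fun adv d a m => b1_c1 ?_).trans ?_
      · simp [hc]
      · simp [S5, hc, Mv.go]
  | ad2 j =>
    by_cases hc : d = 0
    · refine (b1_red _ k' (.mul j) false ![.S, .S, .S, .S, .S] _
        fun adv d a m => b1_c1 ?_).trans ?_
      · simp [hc]
      · simp [S5, hc, Mv.go]
    · refine (b1_red _ k' (.ad2 j) false ![.R, .L, .S, .S, .S] _
        fun adv d a m => b1_c1 ?_).trans ?_
      · simp [hc]
      · simp [S5, hc, Mv.go]
  | mv j =>
    by_cases hc : s = 0
    · refine (b1_red _ k' (.mul (j - 1)) false ![.S, .S, .S, .S, .S] _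
        fun adv d a m => b1_c1 ?_).trans ?_
      · simp [hc]
      · simp [S5, hc, Mv.go]
    · refine (b1_red _ k' (.mv j) false ![.S, .S, .R, .L, .S] _
        fun adv d a m => b1_c1 ?_).trans ?_
      · simp [hc]
      · simp [S5, hc, Mv.go]
  | cp1 => exact hk.elim
  | cp2 => exact hk.elim
  | row fr => exact hk.elim
  | lst fr => exact hk.elim
  | cel fr lr o => exact hk.elim
  | put fr lr o => exact hk.elim
  | bck => exact hk.elim
  | acc => exact hk.elim

end

/-- the steps of the machine with counters, first control states -/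
theorem pf_b1 : J_B1 := by
  intro r T _ U Hh Vv x k d hk
  obtain ⟨k₀, rfl⟩ := b5_surj U Hh Vv d
  rw [b1_cs, b1_main U Hh Vv x k k₀ hk]
  constructor
  · intro h
    exact ⟨k₀, h, rfl⟩
  · rintro ⟨k₁, h1, h2⟩
    rw [b5_inj U Hh Vv h2]
    exact h1

end Pool.Agent.H91.JS
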