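import Pool.Agent.H8.JS.Targets
import Pool.Agent.H69.Sp.Per

/-!
# Definability of auxiliary conditions
-/

set_option autoImplicit false

namespace Pool.Agent.H91.JS

open Pool.Agent.H69.Sp Pool.Agent.H69.Mt Pool.Agent.H16.TO Pool.Agent.H8.PL Pool.Agent.H8.JS

theorem fg_go (d : Mv) (x y : ℕ) : FD (fun _ _ v => v y = d.go (v x)) := by
  cases d with
  | L =>
    refine (((FD.num 0 x).and (FD.num 0 y)).or (FD.succ y x)).congr fun N E v hv => ?_
    show _ ↔ v y = v x - 1
    constructor
    · rintro (⟨h1, h2⟩ | h1) <;> omega
    · intro h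
      by_cases hx : v x = 0
      · exact Or.inl ⟨hx, by omega⟩
      · exact Or.inr (by omega)
  | S => exact (FD.eq y x).congr fun N E v hv => Iff.rfl
  | R => exact (FD.succ x y).congr fun N E v hv => Iff.rfl

/-- definability of auxiliary conditions -/
theorem pf_fg : J_FG := by
  refine ⟨fun i a c ha => ?_, fun i a b ha hb => ?_, fun i a b c ha hb => ?_, fg_go⟩
  · have h1 : a ≠ 30 := by omega
    refine (FD.all 30 ((FD.par i [a, 30]).iff (FD.num c 30))).congr fun N E v hv => ?_
    simp only [Function.update_self, Function.update_of_ne, ne_eq, h1, not_false_eq_true,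
      List.map_cons, List.map_nil, Ex1]
  · have h1 : a ≠ 30 := by omega
    have h2 : b ≠ 30 := by omega
    refine (FD.all 30 ((FD.par i [a, 30]).iff (FD.eq 30 b))).congr fun N E v hv => ?_
    simp only [Function.update_self, Function.update_of_ne, ne_eq, h1, h2, not_false_eq_true,
      List.map_cons, List.map_nil, Ex1]
  · have h1 : a ≠ 30 := by omega
    have h2 : b ≠ 30 := by omega
    refine (FD.all 30 ((FD.par i [a, b, 30]).iff (FD.num c 30))).congr fun N E v hv => ?_
    simp only [Function.update_self, Function.update_of_ne, ne_eq, h1, h2, not_false_eq_true,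
      List.map_cons, List.map_nil, Ex1]

end Pool.Agent.H91.JS
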